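import Mathlib
import Pool.Agent.T2H25.TJ.Fin
import Pool.Agent.Y723.SJ.Def
import Pool.Agent.Y723.SJ.Cmp
import Pool.Agent.TH344.SG.Cor

/-!
# All the moments for the quadratic twists of a Jacobian by the values of a polynomial

Let `g ≥ 1`, let `a_0, ..., a_(2 g)` be distinct integers, and let `J_d` be the Jacobian of
`y² = ∏ (x - d a_i)`, the quadratic twist by `d` of the Jacobian of `y² = ∏ (x - a_i)`. Let `D ≠ 0` be
an arbitrary polynomial with integer coefficients. Over all the integers `t` of a short interval with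
`D(t) ≠ 0`, all the moments of `(#(J_{D(t)}(ℚ) / 2 ^ m) * #Ш(J_{D(t)})[2 ^ m]) ^ (1 / m)` are bounded,
uniformly in `m`, and so are all the moments of `2 ^ (rank + corank)`.
-/

namespace Pool.Agent.Results.MP_a43263_nt.JacobianTwistMoments

open Finset Polynomial Pool.Agent.Y723.SJ Pool.Agent.TH344.SG

variable {g : ℕ}

/-- the tuple `(d a_0, ..., d a_(2 g))`: `y² = ∏ (x - d a_i)` is the quadratic twist by `d` of
`y² = ∏ (x - a_i)` -/
def twist (a : Fin (2 * g + 1) → ℤ) (d : ℤ) (i : Fin (2 * g + 1)) : ℤ := d * a i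

/-- the number of the elements of `Ш(J)` killed by `n`, `J` the Jacobian of `y² = ∏ (x - a i)` -/
noncomputable def sha (n : ℕ) (a : Fin (2 * g + 1) → ℤ) : ℕ := Nat.card (ShaTorsion a n)

/-- the number of the elements of `J(ℚ) / n J(ℚ)` -/
noncomputable def quo (n : ℕ) (a : Fin (2 * g + 1) → ℤ) : ℕ := Nat.card (QuotQ a n)

/-- The corank of the 2-primary part of `Ш(J)`: the largest `t` such that `(ℤ / 2 ^ n) ^ t` embeds
in `Ш(J)` for all `n`. -/
noncomputable def corank (a : Fin (2 * g + 1) → ℤ) : ℕ := corank2 (Sha a)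

/-- the integers `t`, `N < t ≤ N + M`, with `D(t) ≠ 0` -/
noncomputable def Par (D : ℤ[X]) (N : ℤ) (M : ℕ) : Finset ℤ :=
  (Ioc N (N + M)).filter (fun t => D.eval t ≠ 0)

/-! ### Proofs -/

open Pool.Agent.TH344.JG (SelJ)

/-- one curve -/
lemma curve {a : Fin (2 * g + 1) → ℤ} (ha : Function.Injective a) (m : ℕ) :
    Finite (ShaTorsion a (2 ^ m)) ∧ Finite (QuotQ a (2 ^ m)) ∧
      quo (2 ^ m) a * sha (2 ^ m) a ≤ (SelJ a).ncard ^ m ∧
      quo 2 a * 2 ^ corank a ≤ (SelJ a).ncard := by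
  have hfin := Pool.Agent.Y723.JG.selJ_fin ⟨g, rfl⟩ ha
  obtain ⟨h1, h2, h3⟩ := sha_sel_pow ha hfin m
  exact ⟨h1, h2, h3, cor_le ha hfin⟩

/-- **Theorem.** Let `g ≥ 1`, let `a_0, ..., a_(2 g)` be distinct integers and let `D ≠ 0` be a
polynomial with integer coefficients. For all `s` and `L` there is a constant `C` such that for all
`M ≥ 1`, `|N| ≤ M ^ L`, for the quadratic twists `J_t` by `D(t)` of the Jacobian of
`y² = ∏ (x - a_i)`, `N < t ≤ N + M`, `D(t) ≠ 0`: the groups `Ш(J_t)[2 ^ m]` and `J_t(ℚ) / 2 ^ m` are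
finite, the sum of the `s`-th powers of `(#(J_t(ℚ) / 2 ^ m) * #Ш(J_t)[2 ^ m]) ^ (1 / m)` is at most
`C M` for all `m ≥ 1`, the sum of the `s`-th powers of `#(J_t(ℚ) / 2) * 2 ^ corank` is at most `C M`,
and for all `r` at most `C M / 2 ^ (s r)` of the `t` satisfy `2 ^ r ≤ #(J_t(ℚ) / 2) * 2 ^ corank`. -/
theorem result (g : ℕ) (hg : 1 ≤ g) (a : Fin (2 * g + 1) → ℤ) (ha : Function.Injective a)
    (D : ℤ[X]) (hD : D ≠ 0) (s L : ℕ) :
    ∃ C : ℝ, ∀ (N : ℤ) (M : ℕ), 1 ≤ M → |N| ≤ (M : ℤ) ^ L →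
      (∀ t ∈ Par D N M, ∀ m : ℕ, Finite (ShaTorsion (twist a (D.eval t)) (2 ^ m)) ∧
        Finite (QuotQ (twist a (D.eval t)) (2 ^ m))) ∧
      (∀ m : ℕ, 1 ≤ m → ∑ t ∈ Par D N M, ((quo (2 ^ m) (twist a (D.eval t)) *
        sha (2 ^ m) (twist a (D.eval t)) : ℕ) : ℝ) ^ ((s : ℝ) / m) ≤ C * M) ∧
      ∑ t ∈ Par D N M, ((quo 2 (twist a (D.eval t)) *
        2 ^ corank (twist a (D.eval t)) : ℕ) : ℝ) ^ s ≤ C * M ∧
      ∀ r : ℕ, (((Par D N M).filter (fun t => 2 ^ r ≤ quo 2 (twist a (D.eval t)) *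
        2 ^ corank (twist a (D.eval t)))).card : ℝ) ≤ C * M / 2 ^ (s * r) := by
  classical
  obtain ⟨C, hC⟩ := Pool.Agent.T2H25.TJ.seltw_poly hg ha D hD s L
  refine ⟨C, fun N M hM hN => ?_⟩
  have hC' : ∑ t ∈ Par D N M, ((SelJ (twist a (D.eval t))).ncard : ℝ) ^ s ≤ C * M := hC N M hM hN
  have hinj : ∀ t ∈ Par D N M, Function.Injective (twist a (D.eval t)) := by
    intro t ht i j hij
    exact ha (mul_left_cancel₀ (mem_filter.1 ht).2 hij)
  have h3 : ∑ t ∈ Par D N M, ((quo 2 (twist a (D.eval t)) *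
      2 ^ corank (twist a (D.eval t)) : ℕ) : ℝ) ^ s ≤ C * M := by
    refine le_trans (sum_le_sum fun t ht => ?_) hC'
    refine pow_le_pow_left₀ (Nat.cast_nonneg _) ?_ s
    exact_mod_cast (curve (hinj t ht) 0).2.2.2
  refine ⟨fun t ht m => ⟨(curve (hinj t ht) m).1, (curve (hinj t ht) m).2.1⟩, fun m hm => ?_,
    h3, fun r => ?_⟩
  · refine le_trans (sum_le_sum fun t ht => ?_) hC'
    have h1 : ((quo (2 ^ m) (twist a (D.eval t)) * sha (2 ^ m) (twist a (D.eval t)) : ℕ) : ℝ) ≤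
        ((SelJ (twist a (D.eval t))).ncard : ℝ) ^ m := by
      exact_mod_cast (curve (hinj t ht) m).2.2.1
    have h2 := Real.rpow_le_rpow (Nat.cast_nonneg _) h1
      (by positivity : (0 : ℝ) ≤ (s : ℝ) / m)
    refine h2.trans (le_of_eq ?_)
    have hm0 : (m : ℝ) ≠ 0 := by exact_mod_cast (by omega : m ≠ 0)
    rw [← Real.rpow_natCast, ← Real.rpow_mul (Nat.cast_nonneg _), mul_div_cancel₀ _ hm0,
      Real.rpow_natCast]
  · rw [le_div_iff₀ (by positivity)]
    refine le_trans ?_ h3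
    refine le_trans ?_ (sum_le_sum_of_subset_of_nonneg (filter_subset (fun t =>
      2 ^ r ≤ quo 2 (twist a (D.eval t)) * 2 ^ corank (twist a (D.eval t))) (Par D N M))
      fun t _ _ => by positivity)
    rw [← nsmul_eq_mul]
    refine card_nsmul_le_sum _ _ _ fun t ht => ?_
    have h4 := (mem_filter.1 ht).2
    have h5 : (2 : ℝ) ^ (s * r) = ((2 : ℝ) ^ r) ^ s := by rw [← pow_mul, mul_comm]
    rw [h5]
    refine pow_le_pow_left₀ (by positivity) ?_ s
    exact_mod_cast h4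

end Pool.Agent.Results.MP_a43263_nt.JacobianTwistMoments
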