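import Mathlib
import Pool.Agent.Y723.SJ.Def
import Pool.Agent.T2H25.Prod

/-!
# Small prime twists of products of Jacobians with trivial 2-primary Tate-Shafarevich group

Let `m ≥ 1` and `g_1, ..., g_m ≥ 1`. All the `m`-tuples of hyperelliptic curves
`C_k : y² = (x - a_{k, 0}) (x - a_{k, 1}) ... (x - a_{k, 2 g_k})` with distinct integers
`a_{k, i} ∈ [-X, X]`, `1 ≤ k ≤ m`. For almost all of these `m`-tuples a positive proportion of the primes
`q ≤ Q`, for every `Q` larger than a power of `log X`, has the following property: the quadratic twists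
by `q` of the Jacobians of all the curves `C_1, ..., C_m` simultaneously have rank zero, no rational
point of order 4 and trivial `Ш[2 ^ ∞]`; that is, the twist by `q` of the abelian variety
`A = ∏ Jac(C_k)`, of dimension `∑ g_k`, has `Ш(A_q / ℚ)[2 ^ ∞] = 0` and `A_q(ℚ) ⊗ ℤ_2 = A_q[2]`.
-/

set_option autoImplicit false

namespace Pool.Agent.Results.MP_a43263_nt.ProductsOfJacobians

open Finset Pool.Agent.Y723.SJ

open Classical in
/-- the families `(a_k)` of tuples of distinct integers of absolute value at most `X`, where `a_k` has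
length `2 g_k + 1` -/
noncomputable def Fam {m : ℕ} (g : Fin m → ℕ) (X : ℕ) :
    Finset ((k : Fin m) → Fin (2 * g k + 1) → ℤ) :=
  Fintype.piFinset fun k =>
    (Fintype.piFinset (fun _ : Fin (2 * g k + 1) => Icc (-(X : ℤ)) X)).filter Function.Injective

/-- The tuple `(q b_0, ..., q b_{2 g})`. The curve `y² = ∏ (x - q b_i)` is the quadratic twist
`q y² = ∏ (x - b_i)` of the curve `y² = ∏ (x - b_i)`: multiply `x` by `q` and `y` by `q ^ (g + 1)`. -/
def twist {g : ℕ} (q : ℤ) (b : Fin (2 * g + 1) → ℤ) : Fin (2 * g + 1) → ℤ := fun i => q * b i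

open Classical in
/-- The primes `q ≤ Q` such that for all `k` the Jacobian `J` of the curve `y² = ∏ (x - q a_{k, i})` has
`#(J(ℚ) / 2 ^ t J(ℚ)) = 2 ^ (2 g_k)` and `Ш(J)[2 ^ t] = 0` for all `t ≥ 1`. -/
noncomputable def Good {m : ℕ} {g : Fin m → ℕ} (Q : ℕ)
    (a : (k : Fin m) → Fin (2 * g k + 1) → ℤ) : Finset ℕ :=
  (Icc 1 Q).filter fun q => q.Prime ∧ ∀ (k : Fin m) (t : ℕ), 1 ≤ t →
    Nat.card (QuotQ (twist (q : ℤ) (a k)) (2 ^ t)) = 2 ^ (2 * g k) ∧
      Nat.card (ShaTorsion (twist (q : ℤ) (a k)) (2 ^ t)) = 1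

/-! ### the proof -/

lemma Fam_eq {m : ℕ} (g : Fin m → ℕ) (X : ℕ) :
    Fam g X = Pool.Agent.T2H25.MJ.FM (fun k => 2 * g k + 1) X := rfl

open Classical in
/-- **Theorem.** For all `m ≥ 1` and `g_1, ..., g_m ≥ 1` there is a constant `C` such that for every
`ε > 0` there are `c > 0` and `X₀` such that for all `X ≥ X₀` and all `Q ≥ (log X) ^ C` the following
holds for all but at most `ε * #(Fam g X)` of the elements `a` of `Fam g X`: there are at least
`c * Q / log Q` primes `q ≤ Q` such that for all `k` the Jacobian `J_k` of `y² = ∏ (x - q a_{k, i})`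
satisfies `#(J_k(ℚ) / 2 ^ t J_k(ℚ)) = 2 ^ (2 g_k)` and `Ш(J_k)[2 ^ t] = 0` for all `t ≥ 1`. -/
theorem result : ∀ (m : ℕ) (g : Fin m → ℕ), 1 ≤ m → (∀ k, 1 ≤ g k) → ∃ C : ℕ, ∀ ε : ℝ, 0 < ε →
    ∃ c : ℝ, 0 < c ∧ ∃ X₀ : ℕ, ∀ X : ℕ, X₀ ≤ X → ∀ Q : ℕ, (Real.log X) ^ C ≤ Q →
      (((Fam g X).filter (fun a => ¬ c * Q / Real.log Q ≤ ((Good Q a).card : ℝ))).card : ℝ) ≤
        ε * ((Fam g X).card : ℝ) := by
  intro m g hm hg
  refine ⟨Pool.Agent.Y723.PT.CE (∑ k, (2 * g k + 1)), fun ε hε => ?_⟩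
  obtain ⟨c, hc, Y, hY, X₀, h⟩ :=
    Pool.Agent.T2H25.MJ.mainA Pool.Agent.T2H25.key hm hg ε hε
  refine ⟨c, hc, X₀, fun X hX Q hQ => ?_⟩
  refine le_trans (Nat.cast_le.2 (card_le_card ?_)) (le_trans (h X hX Q hQ) (by rw [Fam_eq]))
  intro a ha
  rw [Fam_eq, mem_filter] at ha
  rw [mem_filter]
  refine ⟨ha.1, fun h1 => ha.2 (h1.trans ?_)⟩
  have h2 : Pool.Agent.T2H25.MJ.SdA Y Q a ⊆ Good Q a := by
    intro q hq
    unfold Pool.Agent.T2H25.MJ.SdA at hq
    rw [mem_filter] at hq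
    obtain ⟨hq1, hq2⟩ := hq
    unfold Good
    rw [mem_filter]
    have hp : q.Prime := by
      obtain ⟨T, -, h3⟩ := (hq2 ⟨0, hm⟩).ex
      exact h3.pr
    refine ⟨hq1, hp, fun k t ht => ?_⟩
    obtain ⟨hinj, hty, T, hT, hgq⟩ := hq2 k
    obtain ⟨t1, t2⟩ := Pool.Agent.Y723.PT.tw_card ⟨g k, rfl⟩ hY hinj hty hT hgq
    exact Pool.Agent.Y723.PT.triv_of (hg k) hinj hp hgq.nd t1 t2 t ht
  exact_mod_cast card_le_card h2

end Pool.Agent.Results.MP_a43263_nt.ProductsOfJacobians
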