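import Mathlib
import Pool.Agent.Y723.SJ.Def
import Pool.Agent.T2H25.MainG
import Pool.Agent.T2H25.Sub

/-!
# The joint law of the 2-Selmer sizes of the twists by products of split primes

Let `g ≥ 1`. All the curves `y² = (x - a_0) (x - a_1) ... (x - a_{2 g})` with distinct integers `a_i`,
ordered by `max |a_i|`; `J` is the Jacobian and `J_D` its quadratic twist by `D`. For almost all of
these curves, for a positive proportion of the primes `q₀` up to any bound larger than a power of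
`log max |a_i|`, the following holds. Let `q_1, ..., q_s` be primes between `x` and `2 x` which split
completely in a fixed multiquadratic field. There is a symmetric matrix `M` over `𝔽₂`, whose law for
`x → ∞` is the uniform law on the symmetric `s × s` matrices, such that for all subsets `I` of
`{1, ..., s}` simultaneously the twist by `D = q₀ ∏_{i ∈ I} q_i` satisfies
`#(J_D(ℚ) / 2 J_D(ℚ)) * #Ш(J_D)[2] ≤ 2 ^ (2 g (1 + r))`, `r` the corank of the matrix `M_I`, and if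
`r = 0` then `J_D` has rank zero and `Ш(J_D)[2 ^ ∞] = 0`. In particular the last property holds for
`D = q₀ q_1 ... q_s` with probability at least `∏_{i ≥ 0} (1 - 2 ^ (- (2 i + 1))) = 0.4194...`.
-/

set_option autoImplicit false

namespace Pool.Agent.Results.MP_a43263_nt.SplitTwistLaw

open Finset Pool.Agent.Y723.SJ

open Classical in
/-- the tuples of distinct integers of absolute value at most `X` -/
noncomputable def Fam (g X : ℕ) : Finset (Fin (2 * g + 1) → ℤ) :=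
  (Fintype.piFinset (fun _ : Fin (2 * g + 1) => Icc (-(X : ℤ)) X)).filter Function.Injective

/-- The tuple `(D a_0, ..., D a_{2 g})`. The curve `y² = ∏ (x - D a_i)` is the quadratic twist
`D y² = ∏ (x - a_i)` of the curve `y² = ∏ (x - a_i)`: multiply `x` by `D` and `y` by `D ^ (g + 1)`. -/
def twist {g : ℕ} (D : ℤ) (a : Fin (2 * g + 1) → ℤ) : Fin (2 * g + 1) → ℤ := fun i => D * a i

/-- `#(J(ℚ) / 2 ^ m J(ℚ)) = 2 ^ (2 g)` and `Ш(J)[2 ^ m] = 0` for all `m ≥ 1`, where `J` is the Jacobian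
of `y² = ∏ (x - b_i)` -/
def Triv {g : ℕ} (b : Fin (2 * g + 1) → ℤ) : Prop := ∀ m : ℕ, 1 ≤ m →
  Nat.card (QuotQ b (2 ^ m)) = 2 ^ (2 * g) ∧ Nat.card (ShaTorsion b (2 ^ m)) = 1

/-- the primes `q` which split completely in the field generated by the square roots of `-1`, of `2`
and of the odd primes `p` such that `p ≤ Y` or `p` divides one of the differences `a_i - a_j` -/
structure IsSplit {g : ℕ} (Y : ℕ) (a : Fin (2 * g + 1) → ℤ) (q : ℕ) : Prop where
  prime : q.Prime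
  mod8 : q % 8 = 1
  square : ∀ p : ℕ, p.Prime → p ≠ 2 → (p ≤ Y ∨ ∃ i j, i ≠ j ∧ (p : ℤ) ∣ a i - a j) →
    p ≠ q ∧ IsSquare (p : ZMod q)

open Classical in
/-- the split primes `q`, `x < q ≤ 2 x` -/
noncomputable def Split {g : ℕ} (Y : ℕ) (a : Fin (2 * g + 1) → ℤ) (x : ℕ) : Finset ℕ :=
  (Ioc x (2 * x)).filter fun q => IsSplit Y a q

/-- The matrix `M_I`, for a symmetric matrix `M` and a subset `I` of the indices: `M_{j k}` outside of
the diagonal, and `M_{j j} + ∑_{l ∉ I} M_{j l}` on the diagonal. -/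
def restr {s : ℕ} (M : Matrix (Fin s) (Fin s) (ZMod 2)) (I : Finset (Fin s)) :
    Matrix I I (ZMod 2) := fun j k => if j = k then M j j + ∑ l ∈ Iᶜ, M j l else M j k

/-- the dimension of the kernel -/
noncomputable def corank {ι : Type} [Fintype ι] (M : Matrix ι ι (ZMod 2)) : ℕ :=
  Module.finrank (ZMod 2) (LinearMap.ker M.mulVecLin)

/-- The matrix `M` controls all the twists by `D = q₀ ∏_{i ∈ I} q_i`: if `r` is the corank of `M_I`, then
`#(J_D(ℚ) / 2 J_D(ℚ)) * #Ш(J_D)[2] ≤ 2 ^ (2 g (1 + r))`, and `Triv` holds if `r = 0`. -/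
def Controls {g s : ℕ} (a : Fin (2 * g + 1) → ℤ) (q₀ : ℕ) (q : Fin s → ℕ)
    (M : Matrix (Fin s) (Fin s) (ZMod 2)) : Prop := ∀ I : Finset (Fin s), ∀ b : Fin (2 * g + 1) → ℤ,
  b = twist ((q₀ : ℤ) * ∏ i ∈ I, (q i : ℤ)) a →
    Finite (QuotQ b (2 ^ 1)) ∧ Finite (ShaTorsion b (2 ^ 1)) ∧
    Nat.card (QuotQ b (2 ^ 1)) * Nat.card (ShaTorsion b (2 ^ 1)) ≤
      2 ^ (2 * g * (1 + corank (restr M I))) ∧
    (corank (restr M I) = 0 → Triv b)

open Classical in
/-- the law of the twists by the products of `q₀` and split primes -/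
structure Law {g : ℕ} (Y : ℕ) (a : Fin (2 * g + 1) → ℤ) (q₀ : ℕ) : Prop where
  /-- the number of the split primes between `x` and `2 x` is at least `κ x / log x` -/
  many : ∃ κ : ℝ, 0 < κ ∧ ∃ x₀ : ℕ, ∀ x : ℕ, x₀ ≤ x → κ * x / Real.log x ≤ ((Split Y a x).card : ℝ)
  /-- for every set of symmetric matrices, the tuples of distinct split primes whose twists are
  controlled by a matrix of this set have asymptotically at least the expected proportion -/
  law : ∀ (s : ℕ) (𝓜 : Set (Matrix (Fin s) (Fin s) (ZMod 2))), (∀ M ∈ 𝓜, M.IsSymm) →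
    ∀ δ : ℝ, 0 < δ → ∃ x₀ : ℕ, ∀ x : ℕ, x₀ ≤ x →
      ((Nat.card 𝓜 : ℝ) / 2 ^ (s * (s + 1) / 2) - δ) * ((Split Y a x).card : ℝ) ^ s ≤
      (((Fintype.piFinset fun _ : Fin s => Split Y a x).filter fun q =>
        Function.Injective q ∧ ∃ M ∈ 𝓜, Controls a q₀ q M).card : ℝ)
  /-- rank zero and trivial 2-primary part for the product of all the primes, with probability at
  least `∏ (1 - 2 ^ (- (2 i + 1)))` -/
  triv : ∀ (s : ℕ) (δ : ℝ), 0 < δ → ∃ x₀ : ℕ, ∀ x : ℕ, x₀ ≤ x →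
      (∏ i ∈ range ((s + 1) / 2), (1 - (1 / 2 : ℝ) ^ (2 * i + 1)) - δ) *
        ((Split Y a x).card : ℝ) ^ s ≤
      (((Fintype.piFinset fun _ : Fin s => Split Y a x).filter fun q : Fin s → ℕ =>
        Function.Injective q ∧ Triv (twist ((q₀ : ℤ) * ∏ i, (q i : ℤ)) a)).card : ℝ)

open Classical in
/-- the primes `q₀ ≤ Q` with the law -/
noncomputable def Good {g : ℕ} (Y Q : ℕ) (a : Fin (2 * g + 1) → ℤ) : Finset ℕ :=
  (Icc 1 Q).filter (fun q₀ => q₀.Prime ∧ Law Y a q₀)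

lemma Fam_eq (g X : ℕ) : Fam g X = Pool.Agent.Y723.JG.Fm (2 * g + 1) X := by
  classical
  unfold Fam Pool.Agent.Y723.JG.Fm Pool.Agent.TH344.JG.BoxJ
  exact filter_congr fun a _ => Iff.rfl

/-! ### the proof -/

lemma card_ker {ι : Type} [Fintype ι] (M : Matrix ι ι (ZMod 2)) :
    Nat.card {y : ι → ZMod 2 // M.mulVec y = 0} = 2 ^ corank M := by
  classical
  unfold corank
  have h := Module.natCard_eq_pow_finrank (K := ZMod 2) (V := LinearMap.ker M.mulVecLin)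
  rw [Nat.card_zmod] at h
  rw [← h]
  refine Nat.card_congr (Equiv.subtypeEquivRight fun y => ?_)
  rw [LinearMap.mem_ker, Matrix.mulVecLin_apply]

lemma dvd_iff {g : ℕ} {a : Fin (2 * g + 1) → ℤ} {p : ℕ} (hp : p.Prime) :
    p ∣ Pool.Agent.Y723.PT.DA a ↔ ∃ i j, i ≠ j ∧ (p : ℤ) ∣ a i - a j := by
  constructor
  · intro h
    obtain ⟨c, hc⟩ := (Pool.Agent.Y723.PT.dvd_DA hp).1 h
    exact ⟨c.1.1, c.1.2, ne_of_lt c.2, hc⟩
  · rintro ⟨i, j, hij, h⟩
    by_contra hcon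
    exact Pool.Agent.Y723.PT.nd_sub hp hcon hij h

lemma isSplit_iff {g Y : ℕ} {a : Fin (2 * g + 1) → ℤ} {q : ℕ} :
    IsSplit Y a q ↔ Pool.Agent.T2H25.Cl Y a q := by
  constructor
  · intro h
    refine ⟨h.prime, h.mod8, fun l hl hl2 hd => ?_⟩
    haveI : Fact q.Prime := ⟨h.prime⟩
    have h8 := h.mod8
    obtain ⟨h1, h2⟩ := h.square l hl hl2 (hd.imp_right (dvd_iff hl).1)
    have e := jacobiSym.quadratic_reciprocity_one_mod_four (a := q) (b := l) (by omega)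
      (hl.odd_of_ne_two hl2)
    rw [e, ← jacobiSym.legendreSym.to_jacobiSym, legendreSym.eq_one_iff]
    · exact_mod_cast h2
    · rw [Int.cast_natCast, Ne, ZMod.natCast_eq_zero_iff]
      intro h3
      exact h1 ((Nat.prime_dvd_prime_iff_eq h.prime hl).1 h3).symm
  · intro h
    refine ⟨h.pr, h.m8, fun l hl hl2 hd => ?_⟩
    haveI : Fact q.Prime := ⟨h.pr⟩
    have h1 := h.js_prime hl ((hd.imp_right (dvd_iff hl).2).symm)
    have hne : l ≠ q := by
      rintro rfl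
      rw [Pool.Agent.T2H25.js_self hl] at h1
      exact zero_ne_one h1
    refine ⟨hne, ?_⟩
    rw [← jacobiSym.legendreSym.to_jacobiSym, legendreSym.eq_one_iff] at h1
    · exact_mod_cast h1
    · rw [Int.cast_natCast, Ne, ZMod.natCast_eq_zero_iff]
      intro h3
      exact hne ((Nat.prime_dvd_prime_iff_eq h.pr hl).1 h3).symm

lemma split_eq {g : ℕ} (Y : ℕ) (a : Fin (2 * g + 1) → ℤ) (x : ℕ) :
    Split Y a x = Pool.Agent.T2H25.SpX Y a x := by
  classical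
  unfold Split Pool.Agent.T2H25.SpX
  exact filter_congr fun q _ => isSplit_iff

lemma controls {g Y : ℕ} (hg : 1 ≤ g) (hY : 2 ≤ Y) {a : Fin (2 * g + 1) → ℤ} {q₀ : ℕ}
    (h : Pool.Agent.T2H25.Sd Y a q₀) {s : ℕ} {q : Fin s → ℕ}
    (hq : ∀ j, Pool.Agent.T2H25.Cl Y a (q j)) (hi : Function.Injective q) (hne : ∀ j, q j ≠ q₀) :
    Controls a q₀ q (Pool.Agent.T2H25.Mt q₀ q) := by
  intro I b hb
  obtain ⟨hinj, hty, T, hT, hq0⟩ := h
  obtain ⟨st, h2, h3⟩ := Pool.Agent.T2H25.sub_sel hg hY hinj hty hT hq0 hq hi hne I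
  have hrs : Pool.Agent.T2H25.rst (Pool.Agent.T2H25.Mt q₀ q) I =
      restr (Pool.Agent.T2H25.Mt q₀ q) I := rfl
  rw [hrs, card_ker] at h3
  have hex := st.ex0
  rw [Pool.Agent.T2H25.DD_image hi] at hex
  have hD := hex.ne hq0.pr
  obtain ⟨f1, f2, f3⟩ := Pool.Agent.T2H25.bound_of hinj hD h2
  have hbt : b = Pool.Agent.Y723.PT.tw ((q₀ : ℤ) * ∏ i ∈ I, (q i : ℤ)) a := hb
  rw [hbt]
  refine ⟨f1, f2, f3.trans (h3.trans (le_of_eq ?_)), fun hr m hm => ?_⟩
  · rw [← pow_mul, ← pow_add]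
    congr 1
    ring
  · rw [hr, pow_zero, one_pow, mul_one] at h3
    exact Pool.Agent.T2H25.triv_of hg hinj hq0.pr hex hq0.nd h2 h3 m hm

/-- the map onto the full matrix -/
lemma corank_univ {s : ℕ} (M : Matrix (Fin s) (Fin s) (ZMod 2))
    (h : ∀ x, M.mulVec x = 0 → x = 0) : corank (restr M univ) = 0 := by
  classical
  unfold corank
  rw [Submodule.finrank_eq_zero, LinearMap.ker_eq_bot']
  intro y hy
  rw [Matrix.mulVecLin_apply] at hy
  have h1 : ∀ j k : (univ : Finset (Fin s)), restr M univ j k = M j k := by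
    intro j k
    unfold restr
    split_ifs with hjk
    · subst hjk
      rw [compl_univ, sum_empty, add_zero]
    · rfl
  have h2 : (fun j : Fin s => y ⟨j, mem_univ _⟩) = 0 := by
    apply h
    funext j
    have h3 := congrFun hy ⟨j, mem_univ _⟩
    have h4 : (restr M univ).mulVec y ⟨j, mem_univ _⟩ =
        ∑ k : (univ : Finset (Fin s)), M j k * y k := by
      show ∑ k, restr M univ ⟨j, mem_univ _⟩ k * y k = _
      exact sum_congr rfl fun k _ => by rw [h1]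
    rw [h4] at h3
    have h5 : M.mulVec (fun j : Fin s => y ⟨j, mem_univ _⟩) j =
        ∑ k : Fin s, M j k * y ⟨k, mem_univ _⟩ := rfl
    rw [h5, Pi.zero_apply]
    rw [Pi.zero_apply] at h3
    rw [← h3]
    exact Finset.sum_bij (fun k _ => ⟨k, mem_univ _⟩) (fun _ _ => mem_univ _)
      (fun _ _ _ _ h => congrArg Subtype.val h) (fun k _ => ⟨k.1, mem_univ _, rfl⟩) fun _ _ => rfl
  funext j
  exact congrFun h2 j.1

lemma law_of {g Y : ℕ} (hg : 1 ≤ g) (hY : 2 ≤ Y) {a : Fin (2 * g + 1) → ℤ} {q₀ : ℕ}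
    (h : Pool.Agent.T2H25.Sd Y a q₀) : q₀.Prime ∧ Law Y a q₀ := by
  classical
  have hH : Pool.Agent.T2H25.H0 Y a q₀ := by
    obtain ⟨T, -, hq0⟩ := h.ex
    exact ⟨h.inj, hq0.pr, hq0.md, hq0.nd⟩
  have hlaw : ∀ (s : ℕ) (𝓜 : Set (Matrix (Fin s) (Fin s) (ZMod 2))), (∀ M ∈ 𝓜, M.IsSymm) →
    ∀ δ : ℝ, 0 < δ → ∃ x₀ : ℕ, ∀ x : ℕ, x₀ ≤ x →
      ((Nat.card 𝓜 : ℝ) / 2 ^ (s * (s + 1) / 2) - δ) * ((Split Y a x).card : ℝ) ^ s ≤
      (((Fintype.piFinset fun _ : Fin s => Split Y a x).filter fun q =>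
        Function.Injective q ∧ ∃ M ∈ 𝓜, Controls a q₀ q M).card : ℝ) := by
    intro s 𝓜 hM δ hδ
    obtain ⟨x₀, hx₀⟩ := Pool.Agent.T2H25.law hH s (fun M => M ∈ 𝓜) δ hδ
    refine ⟨x₀, fun x hx => ?_⟩
    have h1 := hx₀ x hx
    rw [split_eq]
    have h2 : Nat.card {M : Matrix (Fin s) (Fin s) (ZMod 2) // M.IsSymm ∧ M ∈ 𝓜} =
        Nat.card 𝓜 :=
      Nat.card_congr (Equiv.subtypeEquivRight fun M => ⟨fun h => h.2, fun h => ⟨hM M h, h⟩⟩)
    rw [h2] at h1
    refine h1.trans ?_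
    have h3 : ((Fintype.piFinset fun _ : Fin s => Pool.Agent.T2H25.SpX Y a x).filter fun q =>
      Function.Injective q ∧ (∀ j, q j ≠ q₀) ∧ Pool.Agent.T2H25.Mt q₀ q ∈ 𝓜) ⊆
      ((Fintype.piFinset fun _ : Fin s => Pool.Agent.T2H25.SpX Y a x).filter fun q =>
        Function.Injective q ∧ ∃ M ∈ 𝓜, Controls a q₀ q M) := by
      intro q hq
      rw [mem_filter] at hq ⊢
      obtain ⟨k1, k2, k3, k4⟩ := hq
      refine ⟨k1, k2, _, k4, controls hg hY h (fun j => ?_) k2 k3⟩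
      have := Fintype.mem_piFinset.1 k1 j
      unfold Pool.Agent.T2H25.SpX at this
      exact (mem_filter.1 this).2
    exact_mod_cast card_le_card h3
  refine ⟨hH.pr, ⟨?_, hlaw, ?_⟩⟩
  · obtain ⟨κ, hκ, x₀, hx₀⟩ := hH.many
    refine ⟨κ, hκ, x₀, fun x hx => ?_⟩
    rw [split_eq]
    exact hx₀ x hx
  · intro s δ hδ
    obtain ⟨x₀, hx₀⟩ := hlaw s {M | M.IsSymm ∧ ∀ x, M.mulVec x = 0 → x = 0} (fun M hM => hM.1) δ hδ
    refine ⟨x₀, fun x hx => ?_⟩
    have h1 := hx₀ x hx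
    have h2 : (Nat.card ({M : Matrix (Fin s) (Fin s) (ZMod 2) | M.IsSymm ∧
        ∀ x, M.mulVec x = 0 → x = 0} : Set _) : ℝ) = 2 ^ (s * (s + 1) / 2) *
        ∏ i ∈ range ((s + 1) / 2), (1 - (1 / 2 : ℝ) ^ (2 * i + 1)) := by
      have := Pool.Agent.Y839.CQ.sym_ker (Fin s)
      rw [Fintype.card_fin] at this
      exact this
    rw [h2, mul_div_cancel_left₀ _ (by positivity)] at h1
    refine h1.trans ?_
    have h3 : ((Fintype.piFinset fun _ : Fin s => Split Y a x).filter fun q =>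
        Function.Injective q ∧ ∃ M ∈ ({M : Matrix (Fin s) (Fin s) (ZMod 2) | M.IsSymm ∧
        ∀ x, M.mulVec x = 0 → x = 0} : Set _), Controls a q₀ q M) ⊆
        ((Fintype.piFinset fun _ : Fin s => Split Y a x).filter fun q : Fin s → ℕ =>
        Function.Injective q ∧ Triv (twist ((q₀ : ℤ) * ∏ i, (q i : ℤ)) a)) := by
      intro q hq
      rw [mem_filter] at hq ⊢
      obtain ⟨k1, k2, M, ⟨-, k3⟩, k4⟩ := hq
      exact ⟨k1, k2, (k4 univ _ rfl).2.2.2 (corank_univ M k3)⟩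
    exact_mod_cast card_le_card h3

open Classical in
/-- **Theorem.** For every `g ≥ 1` there is a constant `C` such that for every `ε > 0` there are
`c > 0`, `Y` and `X₀` such that for all `X ≥ X₀` and all `Q ≥ (log X) ^ C` the following holds for all
but at most `ε * #(Fam g X)` of the tuples `a` of `Fam g X`: there are at least `c * Q / log Q` primes
`q₀ ≤ Q` with `Law Y a q₀`. That is, for split primes `q_1, ..., q_s` between `x` and `2 x` there is a
symmetric matrix `M` over `𝔽₂`, asymptotically uniformly distributed, such that for all the subsets `I`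
the Jacobian `J_D` of `y² = ∏ (x - D a_i)`, `D = q₀ ∏_{i ∈ I} q_i`, satisfies
`#(J_D(ℚ) / 2 J_D(ℚ)) * #Ш(J_D)[2] ≤ 2 ^ (2 g (1 + r))`, `r` the corank of `M_I`, and if `r = 0` then
`#(J_D(ℚ) / 2 ^ m J_D(ℚ)) = 2 ^ (2 g)` and `Ш(J_D)[2 ^ m] = 0` for all `m ≥ 1`. For
`D = q₀ q_1 ... q_s` the last property has probability at least `∏ (1 - 2 ^ (- (2 i + 1)))`,
`0 ≤ i < (s + 1) / 2`. -/
theorem result : ∀ g : ℕ, 1 ≤ g → ∃ C : ℕ, ∀ ε : ℝ, 0 < ε → ∃ c : ℝ, 0 < c ∧ ∃ Y : ℕ, ∃ X₀ : ℕ,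
    ∀ X : ℕ, X₀ ≤ X → ∀ Q : ℕ, (Real.log X) ^ C ≤ Q →
      (((Fam g X).filter (fun a => ¬ c * Q / Real.log Q ≤ ((Good Y Q a).card : ℝ))).card : ℝ) ≤
        ε * ((Fam g X).card : ℝ) := by
  intro g hg
  refine ⟨Pool.Agent.Y723.PT.CE (2 * g + 1), fun ε hε => ?_⟩
  obtain ⟨c, hc, Y, hY, X₀, h⟩ := Pool.Agent.T2H25.mainG0 Pool.Agent.T2H25.key hg ε hε
  refine ⟨c, hc, Y, X₀, fun X hX Q hQ => ?_⟩
  refine le_trans (Nat.cast_le.2 (card_le_card ?_)) (le_trans (h X hX Q hQ) (by rw [Fam_eq]))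
  intro a ha
  rw [Fam_eq, mem_filter] at ha
  rw [mem_filter]
  refine ⟨ha.1, fun h1 => ha.2 (h1.trans ?_)⟩
  have h2 : Pool.Agent.T2H25.SdQ Y Q a ⊆ Good Y Q a := by
    intro q₀ hq
    unfold Pool.Agent.T2H25.SdQ at hq
    rw [mem_filter] at hq
    unfold Good
    rw [mem_filter]
    exact ⟨hq.1, law_of hg hY hq.2⟩
  exact_mod_cast card_le_card h2

end Pool.Agent.Results.MP_a43263_nt.SplitTwistLaw
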