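import Mathlib
import Pool.Agent.Y723.SJ.Def
import Pool.Agent.T2H25.Tower
import Pool.Agent.T2H25.MainG

/-!
# Infinite multiplicative towers of quadratic twists with finite `Ш[2^∞]`, in every dimension

Let `g ≥ 1`. All the curves `y² = (x - a_0) (x - a_1) ... (x - a_{2 g})` with distinct integers `a_i`,
ordered by `max |a_i|`; `J` is the Jacobian and `J_D` its quadratic twist by `D`. For almost all of
these curves, for a positive proportion of the primes `q₀` up to any bound larger than a power of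
`log max |a_i|`, there is an infinite set `S` of primes such that for EVERY finite subset `P` of `S` the
twist `J_D` by `D = q₀ ∏_{q ∈ P} q` satisfies `#(J_D(ℚ) / 2 ^ m J_D(ℚ)) = 2 ^ (2 g)` and
`Ш(J_D)[2 ^ m] = 0` for all `m ≥ 1`: its rank is zero and the 2-primary part of its
Tate-Shafarevich group is trivial. (These are the abelian varieties which occur in the Weil
restrictions of `J_{q₀}` from all the finite subextensions of the infinite multiquadratic field
`ℚ(√q : q ∈ S)`.) The finite sets of primes with this property contain a tree in which every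
node `P` is extended by all the primes of some residue class.

Proof. The 2-Selmer group of `J_D` for products of primes `q` which are squares at the small places
and at the bad primes of `J`: modulo the points of order two its classes are the solutions of linear
equations given by the Legendre symbols of the prime factors of `D`.
-/

set_option autoImplicit false

namespace Pool.Agent.Results.MP_a43263_nt.TwistTowers

open Finset Pool.Agent.Y723.SJ

open Classical in
/-- the tuples of distinct integers of absolute value at most `X` -/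
noncomputable def Fam (g X : ℕ) : Finset (Fin (2 * g + 1) → ℤ) :=
  (Fintype.piFinset (fun _ : Fin (2 * g + 1) => Icc (-(X : ℤ)) X)).filter Function.Injective

/-- The tuple `(D a_0, ..., D a_{2 g})`. The curve `y² = ∏ (x - D a_i)` is the quadratic twist
`D y² = ∏ (x - a_i)` of the curve `y² = ∏ (x - a_i)`: multiply `x` by `D` and `y` by `D ^ (g + 1)`. -/
def twist {g : ℕ} (D : ℤ) (a : Fin (2 * g + 1) → ℤ) : Fin (2 * g + 1) → ℤ := fun i => D * a i

/-- `#(J(ℚ) / 2 ^ m J(ℚ)) = 2 ^ (2 g)` and `Ш(J)[2 ^ m] = 0` for all `m ≥ 1`, where `J` is the Jacobian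
of `y² = ∏ (x - b_i)` -/
def Triv {g : ℕ} (b : Fin (2 * g + 1) → ℤ) : Prop := ∀ m : ℕ, 1 ≤ m →
  Nat.card (QuotQ b (2 ^ m)) = 2 ^ (2 * g) ∧ Nat.card (ShaTorsion b (2 ^ m)) = 1

/-- A tree of finite sets of primes `P`: it contains the empty set and all the subsets of its
elements, the twists by `q₀ ∏_{q ∈ P} q` satisfy `Triv`, and every `P` is extended by all the
primes of some residue class `b` modulo `m`. -/
structure Tree {g : ℕ} (a : Fin (2 * g + 1) → ℤ) (q₀ : ℕ) (𝒯 : Set (Finset ℕ)) : Prop where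
  empty : ∅ ∈ 𝒯
  sub : ∀ P ∈ 𝒯, ∀ P' ⊆ P, P' ∈ 𝒯
  primes : ∀ P ∈ 𝒯, ∀ q ∈ P, q.Prime ∧ q ≠ q₀
  triv : ∀ P ∈ 𝒯, Triv (twist ((q₀ : ℤ) * ∏ q ∈ P, (q : ℤ)) a)
  grow : ∀ P ∈ 𝒯, ∃ m b : ℕ, 0 < m ∧ Nat.Coprime b m ∧
    ∀ q : ℕ, q.Prime → q ≡ b [MOD m] → q ∉ P ∧ insert q P ∈ 𝒯

open Classical in
/-- the primes `q₀ ≤ Q` such that there are a tree for `q₀` and an infinite set `S` all finite subsets of
which belong to the tree -/
noncomputable def Good {g : ℕ} (Q : ℕ) (a : Fin (2 * g + 1) → ℤ) : Finset ℕ :=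
  (Icc 1 Q).filter (fun q₀ => q₀.Prime ∧ ∃ 𝒯 : Set (Finset ℕ), Tree a q₀ 𝒯 ∧
    ∃ S : Set ℕ, S.Infinite ∧ ∀ P : Finset ℕ, (P : Set ℕ) ⊆ S → P ∈ 𝒯)

lemma Fam_eq (g X : ℕ) : Fam g X = Pool.Agent.Y723.JG.Fm (2 * g + 1) X := by
  classical
  unfold Fam Pool.Agent.Y723.JG.Fm Pool.Agent.TH344.JG.BoxJ
  exact filter_congr fun a _ => Iff.rfl

lemma good_of {g Y Q : ℕ} (hg : 1 ≤ g) (hY : 2 ≤ Y) (a : Fin (2 * g + 1) → ℤ) :
    Pool.Agent.T2H25.SdQ Y Q a ⊆ Good Q a := by
  classical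
  intro q₀ hq
  unfold Pool.Agent.T2H25.SdQ at hq
  rw [mem_filter] at hq
  obtain ⟨h1, hinj, hty, T, hT, hq⟩ := hq
  unfold Good
  rw [mem_filter]
  refine ⟨h1, hq.pr, {P | Pool.Agent.T2H25.Mut Y a q₀ P}, ⟨?_, ?_, ?_, ?_, ?_⟩, ?_⟩
  · exact ⟨by simp, by simp, by simp⟩
  · exact fun P hP P' hP' => hP.sub hP'
  · exact fun P hP q hqP => ⟨(hP.cl q hqP).pr, fun h => hP.ne (h ▸ hqP)⟩
  · intro P hP
    have st : Pool.Agent.T2H25.St Y a T q₀ P := ⟨hg, hY, hinj, hty, hT, hq, hP.cl, hP.ne⟩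
    obtain ⟨h2, h3⟩ := Pool.Agent.T2H25.card_sel st
    rw [hP.kr, one_pow, mul_one] at h3
    exact fun m hm => Pool.Agent.T2H25.triv_of hg hinj hq.pr st.ex0 hq.nd h2 h3 m hm
  · intro P hP
    exact hP.grow hY hinj hq.pr hq.md hq.nd
  · exact Pool.Agent.T2H25.exists_inf hY hinj hq.pr hq.md hq.nd

open Classical in
/-- **Theorem.** For every `g ≥ 1` there is a constant `C` such that for every `ε > 0` there are
`c > 0` and `X₀` such that for all `X ≥ X₀` and all `Q ≥ (log X) ^ C` the following holds for all but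
at most `ε * #(Fam g X)` of the tuples `a` of `Fam g X`: there are at least `c * Q / log Q` primes
`q₀ ≤ Q` for which there is a tree `𝒯` of finite sets of primes such that for all `P ∈ 𝒯` the Jacobian
`J_D` of `y² = ∏ (x - D a_i)`, `D = q₀ ∏_{q ∈ P} q`, satisfies `#(J_D(ℚ) / 2 ^ m J_D(ℚ)) = 2 ^ (2 g)` and
`Ш(J_D)[2 ^ m] = 0` for all `m ≥ 1`, and there is an infinite set `S` of primes such that all the
finite subsets of `S` belong to `𝒯`. -/
theorem result : ∀ g : ℕ, 1 ≤ g → ∃ C : ℕ, ∀ ε : ℝ, 0 < ε → ∃ c : ℝ, 0 < c ∧ ∃ X₀ : ℕ,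
    ∀ X : ℕ, X₀ ≤ X → ∀ Q : ℕ, (Real.log X) ^ C ≤ Q →
      (((Fam g X).filter (fun a => ¬ c * Q / Real.log Q ≤ ((Good Q a).card : ℝ))).card : ℝ) ≤
        ε * ((Fam g X).card : ℝ) := by
  intro g hg
  refine ⟨Pool.Agent.Y723.PT.CE (2 * g + 1), fun ε hε => ?_⟩
  obtain ⟨c, hc, Y, hY, X₀, h⟩ := Pool.Agent.T2H25.mainG0 Pool.Agent.T2H25.key hg ε hε
  refine ⟨c, hc, X₀, fun X hX Q hQ => ?_⟩
  refine le_trans (Nat.cast_le.2 (card_le_card ?_)) (le_trans (h X hX Q hQ) (by rw [Fam_eq]))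
  intro a ha
  rw [Fam_eq, mem_filter] at ha
  rw [mem_filter]
  refine ⟨ha.1, fun h1 => ha.2 (h1.trans ?_)⟩
  exact_mod_cast card_le_card (good_of hg hY a)

end Pool.Agent.Results.MP_a43263_nt.TwistTowers
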